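import Pool.Agent.Helper35.HC.StF

/-!
# Module LIM of project HC (MP_925021_gt): the limit point
-/

set_option autoImplicit false

namespace Helper85.HC

open Helper35.HC Helper35.HSF Helper35.MS Helper35.PI Helper35.PI2 Helper32.CL
open scoped ContDiff Manifold Topology ENNReal BigOperators
open MeasureTheory Set Filter

/-- A curve with speed at most `c / √(T - t)`. -/
private theorem speed {E : Type} [NormedAddCommGroup E] [NormedSpace ℝ E] (f f' : ℝ → E)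
    (T a b c : ℝ) (hab : a ≤ b) (hbT : b < T)
    (hf : ∀ t ∈ Icc a b, HasDerivAt f (f' t) t)
    (hc : ∀ t ∈ Icc a b, ‖f' t‖ ≤ c / Real.sqrt (T - t)) (hc0 : 0 ≤ c) :
    ‖f b - f a‖ ≤ 2 * c * Real.sqrt (T - a) := by
  have hder : ∀ t ∈ Icc a b, HasDerivAt
      (fun t => 2 * c * (Real.sqrt (T - a) - Real.sqrt (T - t))) (c / Real.sqrt (T - t)) t := by
    intro t ht
    have hpos : 0 < T - t := by linarith [ht.2]
    have h1 : HasDerivAt (fun t : ℝ => T - t) (-1) t := by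
      simpa using (hasDerivAt_id t).const_sub T
    have h2 := (h1.sqrt hpos.ne').const_sub (Real.sqrt (T - a))
    have h3 := h2.const_mul (2 * c)
    have h5 : Real.sqrt (T - t) ≠ 0 := (Real.sqrt_pos.2 hpos).ne'
    have h4 : 2 * c * (-(-1 / (2 * Real.sqrt (T - t)))) = c / Real.sqrt (T - t) := by
      field_simp
    rw [← h4]
    exact h3
  have h := image_norm_le_of_norm_deriv_right_le_deriv_boundary' (E := E)
    (f := fun t => f t - f a) (f' := f')
    (B := fun t => 2 * c * (Real.sqrt (T - a) - Real.sqrt (T - t)))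
    (B' := fun t => c / Real.sqrt (T - t)) (a := a) (b := b)
    (fun t ht => ((hf t ht).sub_const (f a)).continuousAt.continuousWithinAt)
    (fun t ht => ((hf t ⟨ht.1, ht.2.le⟩).sub_const (f a)).hasDerivWithinAt)
    (by simp)
    (fun t ht => (hder t ht).continuousAt.continuousWithinAt)
    (fun t ht => (hder t ⟨ht.1, ht.2.le⟩).hasDerivWithinAt)
    (fun t ht => hc t ⟨ht.1, ht.2.le⟩) (right_mem_Icc.2 hab)
  refine h.trans ?_
  have h0 : 0 ≤ Real.sqrt (T - b) := Real.sqrt_nonneg _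
  have h1 : 0 ≤ 2 * c := by linarith
  nlinarith [mul_nonneg h1 h0]

/-- the powers of `s ∈ (0,1]` used here -/
private theorem powers (s α : ℝ) (hs : 0 < s) (hs1 : s ≤ 1) (hα : 0 < α) :
    s ^ (1 / 2 + α / 4) ≤ Real.sqrt s ∧ s ^ (1 / 2 + α / 4) ≤ s ^ (1 / 2 + α / 8) ∧
    Real.sqrt s * s ^ (1 / 2 + α / 4) = s ^ (1 + α / 4) ∧
    (s ^ (1 / 2 + α / 4)) ^ 2 ≤ s ^ (1 + α / 4) ∧
    Real.sqrt (s ^ (1 + α / 4)) = s ^ (1 / 2 + α / 8) := by
  have e1 : Real.sqrt s = s ^ (1 / 2 : ℝ) := Real.sqrt_eq_rpow s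
  refine ⟨?_, ?_, ?_, ?_, ?_⟩
  · rw [e1]
    exact Real.rpow_le_rpow_of_exponent_ge hs hs1 (by linarith)
  · exact Real.rpow_le_rpow_of_exponent_ge hs hs1 (by linarith)
  · rw [e1, ← Real.rpow_add hs]
    congr 1
    ring
  · have h1 : (s ^ (1 / 2 + α / 4)) ^ 2 = s ^ (1 + α / 2) := by
      rw [pow_two, ← Real.rpow_add hs]
      congr 1
      ring
    rw [h1]
    exact Real.rpow_le_rpow_of_exponent_ge hs hs1 (by linarith)
  · rw [Real.sqrt_eq_rpow, ← Real.rpow_mul hs.le]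
    congr 1
    ring

theorem hLIM (hSPT : StSPT) (hHFP : StHFP) (hFZP : StFZP) (hHTR : StHTR) (hSMF : StSMF) :
    StLIM := by
  intro n hn N M _ _ _ _ _ _ T F t₄ C α hD
  have hn1 : 1 ≤ n := by omega
  have hfl := hD.fl
  have hI := hfl.toIsImmJ
  have hn0 : (0 : ℝ) < n := by exact_mod_cast hn1
  have hα0 := hD.α0
  have hC1 := hD.C1
  obtain ⟨t₅, C', ht₅, hC'0, hS⟩ := hSPT n hn N M T F t₄ C α hD
  have hJ : ∀ t ∈ Ico t₄ T, t ∈ Ioo 0 T := fun t ht => ⟨lt_of_lt_of_le hD.t4.1 ht.1, ht.2⟩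
  have h54 : ∀ t ∈ Ico t₅ T, t ∈ Ico t₄ T := fun t ht => ⟨le_trans ht₅.1 ht.1, ht.2⟩
  have hT1 : T ≤ 1 := hD.T1
  -- the speed
  set C₂ : ℝ := Real.sqrt n with hC2
  have hC2p : 0 < C₂ := Real.sqrt_pos.2 hn0
  have hsp : ∀ q, ∀ t ∈ Ico t₄ T, ‖HH (n := n) F q t‖ ≤ C₂ / Real.sqrt (T - t) := by
    intro q t ht
    have hs : 0 < T - t := by linarith [ht.2]
    have h0 := hD.yy t ht q
    have h1 : C * (T - t) ^ α ≤ 1 / 2 := by
      refine le_trans ?_ hD.sm
      apply mul_le_mul_of_nonneg_left _ (by linarith)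
      exact Real.rpow_le_rpow hs.le (by linarith [ht.1]) hα0.le
    have h2 := (abs_le.1 (h0.trans h1)).2
    have h3 : 2 / (n : ℝ) * ((T - t) * ‖HH (n := n) F q t‖ ^ 2) ≤ 3 / 2 := by linarith
    have h4 : (T - t) * ‖HH (n := n) F q t‖ ^ 2 ≤ n := by
      have h5 : 2 * ((T - t) * ‖HH (n := n) F q t‖ ^ 2) ≤ 3 / 2 * n := by
        have h6 : 2 / (n : ℝ) * ((T - t) * ‖HH (n := n) F q t‖ ^ 2) * n
            = 2 * ((T - t) * ‖HH (n := n) F q t‖ ^ 2) := by
          field_simp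
        rw [← h6]
        exact mul_le_mul_of_nonneg_right h3 hn0.le
      linarith
    rw [le_div_iff₀ (Real.sqrt_pos.2 hs)]
    have h5 : (‖HH (n := n) F q t‖ * Real.sqrt (T - t)) ^ 2 ≤ n := by
      rw [mul_pow, Real.sq_sqrt hs.le]; linarith
    exact Real.le_sqrt_of_sq_le h5
  have hmv : ∀ q, ∀ t ∈ Ico t₄ T, ∀ t' ∈ Ico t₄ T, t ≤ t' →
      ‖F q t' - F q t‖ ≤ 2 * C₂ * Real.sqrt (T - t) := by
    intro q t ht t' ht' htt
    have hsub : ∀ τ ∈ Icc t t', τ ∈ Ico t₄ T := fun τ hτ =>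
      ⟨le_trans ht.1 hτ.1, lt_of_le_of_lt hτ.2 ht'.2⟩
    exact speed (fun τ => F q τ) (fun τ => HH (n := n) F q τ) T t t' C₂ htt ht'.2
      (fun τ hτ => hfl.flow q τ (hJ τ (hsub τ hτ))) (fun τ hτ => hsp q τ (hsub τ hτ)) hC2p.le
  -- a sequence of times
  set tk : ℕ → ℝ := fun k => T - (T - t₅) / ((k : ℝ) + 1) with htk
  have hTs : 0 < T - t₅ := by linarith [ht₅.2]
  have htkI : ∀ k, tk k ∈ Ico t₅ T := by
    intro k
    have hk : (1 : ℝ) ≤ (k : ℝ) + 1 := by linarith [(Nat.cast_nonneg k : (0 : ℝ) ≤ k)]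
    have h1 : 0 < (T - t₅) / ((k : ℝ) + 1) := by positivity
    have h2 : (T - t₅) / ((k : ℝ) + 1) ≤ T - t₅ := div_le_self hTs.le hk
    constructor
    · simp only [htk]; linarith
    · simp only [htk]; linarith
  have htkm : ∀ k l, k ≤ l → tk k ≤ tk l := by
    intro k l hkl
    simp only [htk]
    have hk : (0 : ℝ) < (k : ℝ) + 1 := by positivity
    have hkl' : (k : ℝ) + 1 ≤ (l : ℝ) + 1 := by
      have : (k : ℝ) ≤ l := by exact_mod_cast hkl
      linarith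
    have := div_le_div_of_nonneg_left hTs.le hk hkl'
    linarith
  have hlim0 : Tendsto (fun k : ℕ => (T - t₅) / ((k : ℝ) + 1)) atTop (𝓝 0) := by
    have h1 := tendsto_one_div_add_atTop_nhds_zero_nat (𝕜 := ℝ)
    have h2 := h1.const_mul (T - t₅)
    simp only [mul_zero] at h2
    refine h2.congr fun k => ?_
    ring
  have htkT : Tendsto tk atTop (𝓝 T) := by
    have := hlim0.const_sub T
    simpa [htk] using this
  have hsq : Tendsto (fun k => Real.sqrt (T - tk k)) atTop (𝓝 0) := by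
    have h1 : Tendsto (fun k => T - tk k) atTop (𝓝 0) := by
      have := htkT.const_sub T
      simpa using this
    have h2 := (Real.continuous_sqrt.tendsto 0).comp h1
    rw [Real.sqrt_zero] at h2
    exact h2
  -- limits
  have hX : ∀ q, ∃ X : EE N, Tendsto (fun k => F q (tk k)) atTop (𝓝 X) := by
    intro q
    have hcs : CauchySeq (fun k => F q (tk k)) := by
      refine cauchySeq_of_le_tendsto_0 (fun N => 2 * C₂ * Real.sqrt (T - tk N)) ?_ ?_
      · intro k l N hk hl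
        rw [dist_eq_norm]
        rcases le_total k l with h | h
        · rw [norm_sub_rev]
          refine (hmv q _ (h54 _ (htkI k)) _ (h54 _ (htkI l)) (htkm k l h)).trans ?_
          have : Real.sqrt (T - tk k) ≤ Real.sqrt (T - tk N) :=
            Real.sqrt_le_sqrt (by linarith [htkm N k hk])
          exact mul_le_mul_of_nonneg_left this (by positivity)
        · refine (hmv q _ (h54 _ (htkI l)) _ (h54 _ (htkI k)) (htkm l k h)).trans ?_
          have : Real.sqrt (T - tk l) ≤ Real.sqrt (T - tk N) :=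
            Real.sqrt_le_sqrt (by linarith [htkm N l hl])
          exact mul_le_mul_of_nonneg_left this (by positivity)
      · have := hsq.const_mul (2 * C₂)
        simpa using this
    exact cauchySeq_tendsto_of_complete hcs
  choose X hX using hX
  have hXd : ∀ q, ∀ t ∈ Ico t₅ T, ‖F q t - X q‖ ≤ 2 * C₂ * Real.sqrt (T - t) := by
    intro q t ht
    have h1 : Tendsto (fun k => ‖F q (tk k) - F q t‖) atTop (𝓝 ‖X q - F q t‖) :=
      ((hX q).sub_const (F q t)).norm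
    rw [norm_sub_rev]
    refine le_of_tendsto h1 ?_
    filter_upwards [(tendsto_order.1 htkT).1 t ht.2] with k hk
    exact hmv q t (h54 t ht) _ (h54 _ (htkI k)) hk.le
  -- the distance to `c₀`
  set K : ℝ := Real.sqrt (2 * n) with hK
  have hK0 : 0 ≤ K := Real.sqrt_nonneg _
  have hKs : ∀ s : ℝ, Real.sqrt (2 * n * s) = K * Real.sqrt s := by
    intro s
    rw [hK]
    exact Real.sqrt_mul (by positivity) s
  have hdist : ∀ t ∈ Ico t₅ T, ∀ (L : EE (n + 1) →ₗᵢ[ℝ] EE N) (c₀ : EE N),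
      (∀ q, ∃ y : EE (n + 1), ‖y‖ = 1 ∧
          ‖F q t - c₀ - Real.sqrt (2 * n * (T - t)) • L y‖ ≤ C' * (T - t) ^ (1 / 2 + α / 4)) →
      ∀ q, ‖F q t - c₀‖ ≤ K * Real.sqrt (T - t) + C' * (T - t) ^ (1 / 2 + α / 4) := by
    intro t ht L c₀ hc q
    obtain ⟨y, hy, h1⟩ := hc q
    have h2 : ‖Real.sqrt (2 * n * (T - t)) • L y‖ = K * Real.sqrt (T - t) := by
      rw [norm_smul, L.norm_map, hy, mul_one, Real.norm_of_nonneg (Real.sqrt_nonneg _), hKs]
    have h3 : F q t - c₀ = (F q t - c₀ - Real.sqrt (2 * n * (T - t)) • L y)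
        + Real.sqrt (2 * n * (T - t)) • L y := by abel
    calc ‖F q t - c₀‖ = ‖(F q t - c₀ - Real.sqrt (2 * n * (T - t)) • L y)
        + Real.sqrt (2 * n * (T - t)) • L y‖ := by rw [← h3]
      _ ≤ ‖F q t - c₀ - Real.sqrt (2 * n * (T - t)) • L y‖
        + ‖Real.sqrt (2 * n * (T - t)) • L y‖ := norm_add_le _ _
      _ ≤ K * Real.sqrt (T - t) + C' * (T - t) ^ (1 / 2 + α / 4) := by
          rw [h2]; linarith
  -- the limit is the same for all points
  set C₃ : ℝ := 2 * (K + C') with hC3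
  have hs1 : ∀ t ∈ Ico t₅ T, 0 < T - t ∧ T - t ≤ 1 := by
    intro t ht
    have h1 := (hJ t (h54 t ht)).1
    exact ⟨by linarith [ht.2], by linarith⟩
  have hdiam : ∀ q p, ∀ t ∈ Ico t₅ T, ‖F q t - F p t‖ ≤ C₃ * Real.sqrt (T - t) := by
    intro q p t ht
    obtain ⟨hs, hs'⟩ := hs1 t ht
    obtain ⟨-, -, L, c₀, -, hc, -⟩ := hS t ht
    have h1 := hdist t ht L c₀ hc q
    have h2 := hdist t ht L c₀ hc p
    have h3 := (powers (T - t) α hs hs' hα0).1
    have h4 : C' * (T - t) ^ (1 / 2 + α / 4) ≤ C' * Real.sqrt (T - t) :=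
      mul_le_mul_of_nonneg_left h3 hC'0.le
    have h5 : F q t - F p t = (F q t - c₀) - (F p t - c₀) := by abel
    calc ‖F q t - F p t‖ = ‖(F q t - c₀) - (F p t - c₀)‖ := by rw [← h5]
      _ ≤ ‖F q t - c₀‖ + ‖F p t - c₀‖ := norm_sub_le _ _
      _ ≤ C₃ * Real.sqrt (T - t) := by
          rw [hC3]
          linarith
  obtain ⟨q₀⟩ := (inferInstance : Nonempty M)
  have hXX : ∀ q, X q = X q₀ := by
    intro q
    have h1 : ‖X q - X q₀‖ ≤ 0 := by
      have h2 : Tendsto (fun k => ‖F q (tk k) - F q₀ (tk k)‖) atTop (𝓝 ‖X q - X q₀‖) :=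
        ((hX q).sub (hX q₀)).norm
      have h3 : Tendsto (fun k => C₃ * Real.sqrt (T - tk k)) atTop (𝓝 0) := by
        have := hsq.const_mul C₃
        simpa using this
      exact le_of_tendsto_of_tendsto' h2 h3 fun k => hdiam q q₀ _ (htkI k)
    exact sub_eq_zero.1 (norm_le_zero_iff.1 h1)
  set x : EE N := X q₀ with hx
  have hli : ∀ t ∈ Ico t₅ T, ∀ q, ‖F q t - x‖ ≤ 2 * C₂ * Real.sqrt (T - t) := by
    intro t ht q
    rw [← hXX q]
    exact hXd q t ht
  have hFx : ∀ q, Tendsto (fun k => F q (tk k)) atTop (𝓝 x) := by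
    intro q
    rw [← hXX q]
    exact hX q
  -- the centre
  set C₁ : ℝ := 2 * C' * K + C' ^ 2 with hC1d
  have hC10 : 0 ≤ C₁ := by rw [hC1d]; positivity
  have hcen : ∀ t₁ ∈ Ico t₅ T, ∀ (L : EE (n + 1) →ₗᵢ[ℝ] EE N) (c₀ : EE N),
      (∀ q, ∃ y : EE (n + 1), ‖y‖ = 1 ∧
          ‖F q t₁ - c₀ - Real.sqrt (2 * n * (T - t₁)) • L y‖
            ≤ C' * (T - t₁) ^ (1 / 2 + α / 4)) →
      ‖c₀ - x‖ ≤ Real.sqrt C₁ * (T - t₁) ^ (1 / 2 + α / 8) := by
    intro t₁ ht₁ L c₀ hc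
    obtain ⟨hs, hs'⟩ := hs1 t₁ ht₁
    obtain ⟨p1, p2, p3, p4, p5⟩ := powers (T - t₁) α hs hs' hα0
    set B : ℝ := 2 * n * (T - t₁) + C₁ * (T - t₁) ^ (1 + α / 4) with hB
    have hst : ∀ q, ‖F q t₁ - c₀‖ ^ 2 ≤ B := by
      intro q
      have h1 := hdist t₁ ht₁ L c₀ hc q
      have h2 := pow_le_pow_left₀ (norm_nonneg _) h1 2
      have h3 : (K * Real.sqrt (T - t₁) + C' * (T - t₁) ^ (1 / 2 + α / 4)) ^ 2
          = K ^ 2 * Real.sqrt (T - t₁) ^ 2
            + 2 * C' * K * (Real.sqrt (T - t₁) * (T - t₁) ^ (1 / 2 + α / 4))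
            + C' ^ 2 * ((T - t₁) ^ (1 / 2 + α / 4)) ^ 2 := by ring
      rw [h3, p3, Real.sq_sqrt hs.le, hK, Real.sq_sqrt (by positivity), ← hK] at h2
      have h4 : C' ^ 2 * ((T - t₁) ^ (1 / 2 + α / 4)) ^ 2 ≤ C' ^ 2 * (T - t₁) ^ (1 + α / 4) :=
        mul_le_mul_of_nonneg_left p4 (by positivity)
      rw [hB, hC1d]
      linarith
    have hup : ∀ y, ∀ t₂ ∈ Ico t₁ T, ‖F y t₂ - c₀‖ ^ 2 + 2 * n * (t₂ - t₁) ≤ B := by
      intro y t₂ ht₂
      have hη : ∀ η : ℝ, 0 < η →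
          ‖F y t₂ - c₀‖ ^ 2 + 2 * n * (t₂ - t₁) ≤ B + η * 2 := by
        intro η hη
        obtain ⟨su0, hf⟩ := hHFP n N hn1 M (Ioo 0 T) F hfl c₀
        obtain ⟨-, -, -, q3⟩ := hHTR n N M (Ioo 0 T) F hI _ _ su0 su0
        have cv : ContDiffOn ℝ ∞
            (fun t : ℝ => 2 * n * (t - t₁) - B - (η + η * (t - t₁))) (Ioo 0 T) := by
          have c1 : ContDiff ℝ ∞ (fun t : ℝ => t - t₁) := contDiff_id.sub contDiff_const
          exact (((contDiff_const.mul c1).sub contDiff_const).sub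
            (contDiff_const.add (contDiff_const.mul c1))).contDiffOn
        obtain ⟨v1, v2⟩ := q3 _ cv
        obtain ⟨-, l1, -, -⟩ := hHTR n N M (Ioo 0 T) F hI _ _ su0 v1
        obtain ⟨l2, l3⟩ := l1 1 1
        have hsub : Icc t₁ t₂ ⊆ Ioo 0 T := fun t ht =>
          hJ t (h54 t ⟨le_trans ht₁.1 ht.1, lt_of_le_of_lt ht.2 ht₂.2⟩)
        have hfin := hFZP n N M (Ioo 0 T) F hfl _ t₁ t₂ l2 hsub (by
          intro q'
          have := hst q'
          simp only [sub_self, mul_zero, add_zero]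
          linarith) (by
          intro q' t ht _ _ _
          have htJ : t ∈ Ioo 0 T := hsub ⟨ht.1.le, ht.2⟩
          rw [(l3 q' t htJ).2, (v2 q' t htJ).2, hf q' t htJ]
          have hder : deriv (fun t : ℝ => 2 * n * (t - t₁) - B - (η + η * (t - t₁))) t
              = 2 * n - η := by
            have h0 : HasDerivAt (fun t : ℝ => t - t₁) 1 t := (hasDerivAt_id t).sub_const t₁
            have h1 : HasDerivAt (fun t : ℝ => 2 * n * (t - t₁) - B - (η + η * (t - t₁)))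
                (2 * n * 1 - (η * 1)) t :=
              ((h0.const_mul (2 * (n : ℝ))).sub_const B).sub ((h0.const_mul η).const_add η)
            rw [h1.deriv, mul_one, mul_one]
          rw [hder]
          linarith) y t₂ ⟨ht₂.1, le_rfl⟩
        have h1 : η * (t₂ - t₁) ≤ η * 1 := by
          apply mul_le_mul_of_nonneg_left _ hη.le
          linarith [ht₂.2]
        have hfin2 : 1 * ‖F y t₂ - c₀‖ ^ 2
            + 1 * (2 * (n : ℝ) * (t₂ - t₁) - B - (η + η * (t₂ - t₁))) < 0 := hfin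
        linarith
      by_contra hneg
      push Not at hneg
      have := hη ((‖F y t₂ - c₀‖ ^ 2 + 2 * n * (t₂ - t₁) - B) / 4) (by linarith)
      linarith
    have h1 : Tendsto (fun k => ‖F q₀ (tk k) - c₀‖ ^ 2 + 2 * n * (tk k - t₁)) atTop
        (𝓝 (‖x - c₀‖ ^ 2 + 2 * n * (T - t₁))) :=
      (((hFx q₀).sub_const c₀).norm.pow 2).add ((htkT.sub_const t₁).const_mul (2 * (n : ℝ)))
    have h2 : ‖x - c₀‖ ^ 2 + 2 * n * (T - t₁) ≤ B := by
      refine le_of_tendsto h1 ?_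
      filter_upwards [(tendsto_order.1 htkT).1 t₁ ht₁.2] with k hk
      exact hup q₀ _ ⟨hk.le, (htkI k).2⟩
    have h3 : ‖c₀ - x‖ ^ 2 ≤ C₁ * (T - t₁) ^ (1 + α / 4) := by
      rw [norm_sub_rev]
      rw [hB] at h2
      linarith
    have h4 := Real.le_sqrt_of_sq_le h3
    rw [Real.sqrt_mul hC10, p5] at h4
    exact h4
  -- the conclusion
  refine ⟨x, t₅, C' + Real.sqrt C₁ + 2 * C₂, ht₅, ?_, ?_⟩
  · have := Real.sqrt_nonneg C₁
    linarith
  intro t ht
  obtain ⟨hs, hs'⟩ := hs1 t ht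
  obtain ⟨p1, p2, p3, p4, p5⟩ := powers (T - t) α hs hs' hα0
  obtain ⟨hinj, hdif, L, c₀, hcF, hc, hc'⟩ := hS t ht
  have hce := hcen t ht L c₀ hc
  have hP0 : 0 ≤ (T - t) ^ (1 / 2 + α / 8) := Real.rpow_nonneg hs.le _
  have hsum : C' * (T - t) ^ (1 / 2 + α / 4) + Real.sqrt C₁ * (T - t) ^ (1 / 2 + α / 8)
      ≤ (C' + Real.sqrt C₁ + 2 * C₂) * (T - t) ^ (1 / 2 + α / 8) := by
    have h1 : C' * (T - t) ^ (1 / 2 + α / 4) ≤ C' * (T - t) ^ (1 / 2 + α / 8) :=
      mul_le_mul_of_nonneg_left p2 hC'0.le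
    have h2 : 0 ≤ 2 * C₂ * (T - t) ^ (1 / 2 + α / 8) := by positivity
    linarith
  have htri : ∀ (a : EE N), ‖a - c₀‖ ≤ C' * (T - t) ^ (1 / 2 + α / 4) →
      ‖a - x‖ ≤ (C' + Real.sqrt C₁ + 2 * C₂) * (T - t) ^ (1 / 2 + α / 8) := by
    intro a ha
    have h1 : a - x = (a - c₀) + (c₀ - x) := by abel
    rw [h1]
    exact (norm_add_le _ _).trans (by linarith)
  refine ⟨hinj, hdif, ?_, L, ?_, ?_⟩
  · intro q
    refine ⟨(hli t ht q).trans (mul_le_mul_of_nonneg_right ?_ (Real.sqrt_nonneg _)),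
      htri _ (hcF q)⟩
    have := Real.sqrt_nonneg C₁
    linarith
  · intro q
    obtain ⟨y, hy, h1⟩ := hc q
    refine ⟨y, hy, ?_⟩
    have h2 := htri (F q t - Real.sqrt (2 * n * (T - t)) • L y) (by
      have h3 : F q t - Real.sqrt (2 * n * (T - t)) • L y - c₀
          = F q t - c₀ - Real.sqrt (2 * n * (T - t)) • L y := by abel
      rw [h3]; exact h1)
    have h3 : F q t - x - Real.sqrt (2 * n * (T - t)) • L y
        = F q t - Real.sqrt (2 * n * (T - t)) • L y - x := by abel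
    rw [h3]; exact h2
  · intro y hy
    obtain ⟨q, h1⟩ := hc' y hy
    refine ⟨q, ?_⟩
    have h2 := htri (F q t - Real.sqrt (2 * n * (T - t)) • L y) (by
      have h3 : F q t - Real.sqrt (2 * n * (T - t)) • L y - c₀
          = F q t - c₀ - Real.sqrt (2 * n * (T - t)) • L y := by abel
      rw [h3]; exact h1)
    have h3 : F q t - x - Real.sqrt (2 * n * (T - t)) • L y
        = F q t - Real.sqrt (2 * n * (T - t)) • L y - x := by abel
    rw [h3]; exact h2

end Helper85.HC
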